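import Pool.Agent.Lib.MP_2a9019_an.L4

/-!
MP_2a9019_an: the lower bound `1/√8 ≤ c₂` (recorded: `1/4 < c₂`).
-/

namespace Pool.Agent.Results.MP_2a9019_an.LowerSqrt8

open Pool.Agent.Lib.MP_2a9019_an

theorem result (a b : ℝ) (hab : a < b) : ((1 / √8 : ℝ) : EReal) ≤ c₂ a b :=
  lower_bound hab

end Pool.Agent.Results.MP_2a9019_an.LowerSqrt8
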