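import Pool.Agent.Lib.MP_2a9019_an.U2

/-!
MP_2a9019_an: the upper bound `c₂ ≤ 1` (recorded: `c₂ ≤ 1.63…`).
-/

namespace Pool.Agent.Results.MP_2a9019_an.UpperOne

open Pool.Agent.Lib.MP_2a9019_an

theorem result (a b : ℝ) (hab : a < b) : c₂ a b ≤ 1 :=
  upper_bound hab

end Pool.Agent.Results.MP_2a9019_an.UpperOne
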